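import Mathlib
import Pool.Agent.H492R3.PW

/-!
# A non-power word missing regular semisimple elements of `SL(2, 2 ^ n)` for every `n`

Type `A₁`, characteristic `2`: the Chevalley group `A₁(q)`, `q = 2 ^ n`, is `SL(2, q)`
(which equals `PSL(2, q)`, the centre being trivial), and the ambient simple algebraic group is
`SL₂` over the algebraic closure, of rank `1`.  The word `w = x⁶ b² x² b³ x b`, `b = y x y⁻¹`, is
not a proper power, but its trace on `SL(2, F)`, `F` of characteristic `2`, is `g ^ 3 + g` with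
`g = tr (x³ b²)`.  Since `t ↦ t ^ 3 + t` takes the value `0` at `0` and at `1`, it is not
surjective on a finite field of characteristic `2`.
-/

open scoped MatrixGroups

namespace Pool.Agent.Results.MP_11bee9_al.CharTwo

/-- An element of `SL(2, F)` (`F` a finite field of characteristic `p`) is regular semisimple if
its order is prime to `p` and its centraliser in `SL(2, K)`, `K` the algebraic closure of `F`, is
a maximal torus, i.e. is conjugate (by `P`) to the group of all diagonal matrices of `SL(2, K)`;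
in particular the centraliser has dimension `1`, the rank of `SL₂`. -/
def IsRegularSemisimple (p : ℕ) {F : Type} [Field F] (g : SL(2, F)) : Prop :=
  Nat.Coprime (orderOf g) p ∧
    ∃ P : SL(2, AlgebraicClosure F), ∀ h : SL(2, AlgebraicClosure F),
      Commute h (Matrix.SpecialLinearGroup.map (algebraMap F (AlgebraicClosure F)) g) ↔
        ((P * h * P⁻¹ : SL(2, AlgebraicClosure F)) 0 1 = 0 ∧
          (P * h * P⁻¹ : SL(2, AlgebraicClosure F)) 1 0 = 0)

/-- Condition `(**)` for the word `w`, the prime `p` and the type `A₁` (realised as `SL₂`): for all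
large `n`, every regular semisimple element of `SL(2, p ^ n)` is a value of `w`. -/
def StarStar (w : FreeGroup (Fin 2)) (p : ℕ) : Prop :=
  ∃ n₀ : ℕ, ∀ n, n₀ ≤ n → ∀ (F : Type) [Field F], Nat.card F = p ^ n →
    ∀ g : SL(2, F), IsRegularSemisimple p g → ∃ x y : SL(2, F), FreeGroup.lift ![x, y] w = g

/-- The matrix `!![0, 1; 1, τ]` of trace `τ`. -/
def T {F : Type} [Field F] (h2 : (2 : F) = 0) (τ : F) : SL(2, F) := ⟨!![0, 1; 1, τ], by
  rw [Matrix.det_fin_two]
  simp only [Matrix.of_apply, Matrix.cons_val', Matrix.cons_val_zero, Matrix.cons_val_one,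
    Matrix.cons_val_fin_one]
  linear_combination -h2⟩

/-- If `P t P⁻¹` is the diagonal matrix with distinct entries `l, m`, then `h` commutes with `t` if
and only if `P h P⁻¹` is diagonal. -/
lemma commute_iff_diag {K : Type} [Field K] (t P h : SL(2, K)) (l m : K) (hlm : l ≠ m)
    (hD : ((P * t * P⁻¹ : SL(2, K)) : Matrix (Fin 2) (Fin 2) K) = !![l, 0; 0, m]) :
    Commute h t ↔ ((P * h * P⁻¹ : SL(2, K)) 0 1 = 0 ∧ (P * h * P⁻¹ : SL(2, K)) 1 0 = 0) := by
  have h1 : Commute h t ↔ (P * h * P⁻¹) * (P * t * P⁻¹) = (P * t * P⁻¹) * (P * h * P⁻¹) := by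
    rw [commute_iff_eq]
    constructor
    · intro H
      calc (P * h * P⁻¹) * (P * t * P⁻¹) = P * (h * t) * P⁻¹ := by group
        _ = P * (t * h) * P⁻¹ := by rw [H]
        _ = _ := by group
    · intro H
      calc h * t = P⁻¹ * ((P * h * P⁻¹) * (P * t * P⁻¹)) * P := by group
        _ = P⁻¹ * ((P * t * P⁻¹) * (P * h * P⁻¹)) * P := by rw [H]
        _ = t * h := by group
  obtain ⟨p, q, r, s, hh⟩ : ∃ p q r s : K,
      ((P * h * P⁻¹ : SL(2, K)) : Matrix (Fin 2) (Fin 2) K) = !![p, q; r, s] :=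
    ⟨_, _, _, _, Matrix.eta_fin_two _⟩
  have h2 : Commute h t ↔ (!![p, q; r, s] : Matrix (Fin 2) (Fin 2) K) * !![l, 0; 0, m] =
      !![l, 0; 0, m] * !![p, q; r, s] := by
    rw [h1, ← hD, ← hh, ← Matrix.SpecialLinearGroup.coe_mul, ← Matrix.SpecialLinearGroup.coe_mul]
    exact ⟨fun H => congrArg _ H, fun H => Subtype.ext H⟩
  rw [h2, hh]
  have hml : m - l ≠ 0 := sub_ne_zero.2 (Ne.symm hlm)
  constructor
  · intro H
    have H01 := congrFun (congrFun H 0) 1
    have H10 := congrFun (congrFun H 1) 0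
    simp [Matrix.mul_apply, Fin.sum_univ_two] at H01 H10
    constructor
    · have : q * (m - l) = 0 := by linear_combination H01
      simpa using (mul_eq_zero.1 this).resolve_right hml
    · have : r * (m - l) = 0 := by linear_combination -H10
      simpa using (mul_eq_zero.1 this).resolve_right hml
  · rintro ⟨H1, H2⟩
    have hq : q = 0 := by simpa using H1
    have hr : r = 0 := by simpa using H2
    rw [hq, hr]
    ext i j
    fin_cases i <;> fin_cases j <;> simp [Matrix.mul_apply, Fin.sum_univ_two, mul_comm]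

lemma exists_diag {K : Type} [Field K] (h2K : (2 : K) = 0) (t l : K) (ht0 : t ≠ 0)
    (hl : l ^ 2 + t * l + 1 = 0) (t' : SL(2, K))
    (hT : (t' : Matrix (Fin 2) (Fin 2) K) = !![0, 1; 1, t]) :
    ∃ P : SL(2, K),
      ((P * t' * P⁻¹ : SL(2, K)) : Matrix (Fin 2) (Fin 2) K) = !![l, 0; 0, l + t] := by
  let P : SL(2, K) := ⟨!![1, l; t⁻¹, t⁻¹ * (l + t)], by
    rw [Matrix.det_fin_two]
    simp only [Matrix.of_apply, Matrix.cons_val', Matrix.cons_val_zero, Matrix.cons_val_one,
      Matrix.cons_val_fin_one]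
    field_simp
    ring⟩
  have hP : (P : Matrix (Fin 2) (Fin 2) K) = !![1, l; t⁻¹, t⁻¹ * (l + t)] := rfl
  have hPi : ((P⁻¹ : SL(2, K)) : Matrix (Fin 2) (Fin 2) K) =
      !![t⁻¹ * (l + t), -l; -t⁻¹, 1] := by
    rw [Matrix.SpecialLinearGroup.coe_inv, hP, Matrix.adjugate_fin_two]
    simp
  refine ⟨P, ?_⟩
  rw [Matrix.SpecialLinearGroup.coe_mul, Matrix.SpecialLinearGroup.coe_mul, hP, hPi, hT]
  ext i j
  fin_cases i <;> fin_cases j <;> simp [Matrix.mul_apply, Fin.sum_univ_two]
  · field_simp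
    linear_combination (-1 : K) * hl + l ^ 2 * h2K
  · linear_combination (-1 : K) * hl + (t * l + 1) * h2K
  · field_simp
    linear_combination (-1 : K) * hl + (l ^ 2 + t * l) * h2K
  · field_simp
    linear_combination hl - (l * t + l ^ 2) * h2K

lemma odd_order {K : Type} [Field K] (h2K : (2 : K) = 0) (l m : K) (t P : SL(2, K))
    (hD : ((P * t * P⁻¹ : SL(2, K)) : Matrix (Fin 2) (Fin 2) K) = !![l, 0; 0, m]) (k : ℕ)
    (hk : t ^ (2 * k) = 1) : t ^ k = 1 := by
  have hpow : ∀ k : ℕ, (((P * t * P⁻¹) ^ k : SL(2, K)) : Matrix (Fin 2) (Fin 2) K) =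
      !![l ^ k, 0; 0, m ^ k] := by
    intro k
    induction k with
    | zero =>
      rw [pow_zero, pow_zero, pow_zero, Matrix.SpecialLinearGroup.coe_one]
      ext i j
      fin_cases i <;> fin_cases j <;> simp
    | succ k ih =>
      rw [pow_succ, Matrix.SpecialLinearGroup.coe_mul, ih, hD]
      ext i j
      fin_cases i <;> fin_cases j <;>
        simp [Matrix.mul_apply, Fin.sum_univ_two, pow_succ]
  have hconj : ∀ k : ℕ, (P * t * P⁻¹) ^ k = P * t ^ k * P⁻¹ := fun k => by
    rw [conj_pow]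
  have h3 : (P * t * P⁻¹) ^ (2 * k) = 1 := by
    rw [hconj, hk, mul_one, mul_inv_cancel]
  have h4 := hpow (2 * k)
  rw [h3, Matrix.SpecialLinearGroup.coe_one] at h4
  have e0 := congrFun (congrFun h4 0) 0
  have e1 := congrFun (congrFun h4 1) 1
  simp at e0 e1
  have sq_one : ∀ z : K, z ^ (2 * k) = 1 → z ^ k = 1 := by
    intro z hz
    have h5 : (z ^ k - 1) ^ 2 = 0 := by
      have h6 : (z ^ k) ^ 2 = 1 := by rw [← pow_mul, mul_comm k 2, hz]
      linear_combination h6 + (1 - z ^ k) * h2K
    exact sub_eq_zero.1 (pow_eq_zero_iff two_ne_zero |>.1 h5)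
  have h7 : (P * t * P⁻¹) ^ k = 1 := by
    apply Subtype.ext
    change (((P * t * P⁻¹) ^ k : SL(2, K)) : Matrix (Fin 2) (Fin 2) K) = 1
    rw [hpow k, sq_one l e0.symm, sq_one m e1.symm]
    ext i j
    fin_cases i <;> fin_cases j <;> simp
  rw [hconj] at h7
  calc t ^ k = P⁻¹ * (P * t ^ k * P⁻¹) * P := by group
    _ = 1 := by rw [h7]; group

lemma regular_T {F : Type} [Field F] [Finite F] (h2 : (2 : F) = 0) (τ : F) (hτ : τ ≠ 0) :
    IsRegularSemisimple 2 (T h2 τ) := by
  have ht0 : algebraMap F (AlgebraicClosure F) τ ≠ 0 := (map_ne_zero _).2 hτ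
  have h2K : (2 : AlgebraicClosure F) = 0 := by
    have := congrArg (algebraMap F (AlgebraicClosure F)) h2
    rwa [map_ofNat, map_zero] at this
  obtain ⟨l, hl⟩ : ∃ l : AlgebraicClosure F,
      l ^ 2 + algebraMap F (AlgebraicClosure F) τ * l + 1 = 0 := by
    have hdeg : (Polynomial.X ^ 2 + Polynomial.C (algebraMap F (AlgebraicClosure F) τ) *
        Polynomial.X + 1 : Polynomial (AlgebraicClosure F)).degree ≠ 0 := by
      have : (Polynomial.X ^ 2 + Polynomial.C (algebraMap F (AlgebraicClosure F) τ) *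
        Polynomial.X + 1 : Polynomial (AlgebraicClosure F)).degree = 2 := by compute_degree!
      rw [this]
      decide
    obtain ⟨z, hz⟩ := IsAlgClosed.exists_root _ hdeg
    exact ⟨z, by simpa [Polynomial.IsRoot] using hz⟩
  have hlm : l ≠ l + algebraMap F (AlgebraicClosure F) τ := by
    intro h
    apply ht0
    linear_combination -h
  have hT : ((Matrix.SpecialLinearGroup.map (algebraMap F (AlgebraicClosure F)) (T h2 τ) :
      SL(2, AlgebraicClosure F)) : Matrix (Fin 2) (Fin 2) (AlgebraicClosure F)) =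
      !![0, 1; 1, algebraMap F (AlgebraicClosure F) τ] := by
    ext i j
    rw [Matrix.SpecialLinearGroup.map_apply_coe]
    fin_cases i <;> fin_cases j <;> simp [T]
  obtain ⟨P, hD⟩ := exists_diag h2K _ l ht0 hl _ hT
  refine ⟨?_, P, fun h => commute_iff_diag _ P h l _ hlm hD⟩
  -- the order is odd
  rw [Nat.coprime_two_right]
  by_contra hodd
  rw [Nat.not_odd_iff_even] at hodd
  obtain ⟨m, hm⟩ := hodd
  have hpos : 0 < orderOf (T h2 τ) := orderOf_pos _
  have hm0 : 0 < m := by omega
  have hinj : Function.Injective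
      (Matrix.SpecialLinearGroup.map (n := Fin 2) (algebraMap F (AlgebraicClosure F))) := by
    intro A B hAB
    apply Subtype.ext
    ext i j
    have h1 := congrArg (fun M : SL(2, AlgebraicClosure F) => M i j) hAB
    simp only [Matrix.SpecialLinearGroup.map_apply_coe] at h1
    exact (algebraMap F (AlgebraicClosure F)).injective h1
  have h9 : (T h2 τ) ^ m = 1 := by
    apply hinj
    rw [map_pow, map_one]
    apply odd_order h2K _ _ _ P hD
    rw [← map_pow, show 2 * m = orderOf (T h2 τ) by omega, pow_orderOf_eq_one, map_one]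
  have := orderOf_dvd_of_pow_eq_one h9
  have := Nat.le_of_dvd hm0 this
  omega

/-- Negative answer: there is a word in two variables which is not a proper power and such that
for every `n ≥ 1` and every field `F` with `2 ^ n` elements some regular semisimple element of
`SL(2, F)` is not a value of the word.  In particular `(**)` fails for this word, the prime `2` and
the type `A₁`. -/
theorem result :
    ∃ w : FreeGroup (Fin 2), (∀ (v : FreeGroup (Fin 2)) (k : ℕ), 2 ≤ k → v ^ k ≠ w) ∧
      (∀ n : ℕ, 1 ≤ n → ∀ (F : Type) [Field F], Nat.card F = 2 ^ n →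
        ∃ g : SL(2, F), IsRegularSemisimple 2 g ∧
          ∀ x y : SL(2, F), FreeGroup.lift ![x, y] w ≠ g) ∧
      ¬ StarStar w 2 := by
  have main : ∀ n : ℕ, 1 ≤ n → ∀ (F : Type) [Field F], Nat.card F = 2 ^ n →
        ∃ g : SL(2, F), IsRegularSemisimple 2 g ∧
          ∀ x y : SL(2, F), FreeGroup.lift ![x, y] Pool.Agent.H492R3.PW.wrd ≠ g := by
    intro n hn F _ hF
    have h2 := Pool.Agent.H492R3.PW.two_eq_zero hF
    have hfin : Finite F := Nat.finite_of_card_ne_zero (by rw [hF]; positivity)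
    obtain ⟨τ, hτ⟩ : ∃ τ : F, ∀ θ : F, θ ^ 3 + θ ≠ τ := by
      by_contra hcon
      push Not at hcon
      have hs : Function.Surjective (fun θ : F => θ ^ 3 + θ) := hcon
      have hi := Finite.injective_iff_surjective.2 hs
      have h01 : (fun θ : F => θ ^ 3 + θ) 0 = (fun θ : F => θ ^ 3 + θ) 1 := by
        simp only
        linear_combination -h2
      exact zero_ne_one (hi h01)
    have hτ0 : τ ≠ 0 := by
      rintro rfl
      exact hτ 0 (by ring)
    refine ⟨T h2 τ, regular_T h2 τ hτ0, fun x y hxy => ?_⟩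
    rw [Pool.Agent.H492R3.PW.lift_wrd] at hxy
    obtain ⟨θ, hθ⟩ := Pool.Agent.H492R3.PW.trace_wordVal h2 x y
    apply hτ θ
    rw [← hθ, hxy, Matrix.trace_fin_two]
    simp [T]
  refine ⟨Pool.Agent.H492R3.PW.wrd, Pool.Agent.H492R3.PW.not_pow_wrd, main, ?_⟩
  rintro ⟨n₀, h⟩
  have hcard : Nat.card (GaloisField 2 (n₀ + 1)) = 2 ^ (n₀ + 1) :=
    GaloisField.card 2 _ (by omega)
  obtain ⟨g, hg, hno⟩ := main (n₀ + 1) (by omega) (GaloisField 2 (n₀ + 1)) hcard
  obtain ⟨x, y, hxy⟩ := h (n₀ + 1) (by omega) (GaloisField 2 (n₀ + 1)) hcard g hg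
  exact hno x y hxy

end Pool.Agent.Results.MP_11bee9_al.CharTwo
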